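import Pool.Agent.W327.RK.Bas

/-!
# Herbrand's formula
-/

set_option autoImplicit false

open Polynomial Pool.Agent.W237.RK

namespace Pool.Agent.W327.RK

section
variable {p : ℕ} [Fact p.Prime]

/-- the conjugates as a finite set -/
noncomputable def orb (F : LF p) (x : Om p) : Finset (Om p) := (lorb_finite F x).toFinset

theorem mem_orb {F : LF p} {x y : Om p} : y ∈ orb F x ↔ y ∈ lorb F x :=
  Set.Finite.mem_toFinset _

theorem coe_orb (F : LF p) (x : Om p) : (orb F x : Set (Om p)) = lorb F x :=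
  Set.Finite.coe_toFinset _

/-- the polynomial of the conjugates -/
noncomputable def gpol (F : LF p) (x : Om p) : (Om p)[X] := ∏ y ∈ orb F x, (X - C y)

theorem gpol_monic (F : LF p) (x : Om p) : (gpol F x).Monic :=
  monic_prod_of_monic _ _ fun y _ => monic_X_sub_C y

theorem gpol_IP (F : LF p) {x : Om p} (hx : ‖x‖ ≤ 1) : IP (gpol F x) := by
  refine IP.prod _ _ fun y hy => IP.X.sub (IP.C ?_)
  rw [lorb_norm (mem_orb.1 hy)]
  exact hx

theorem gpol_map (F : LF p) (x : Om p) (σ : LAut p) :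
    (gpol F x).map (σ : Om p →+* Om p) = ∏ y ∈ orb F x, (X - C (σ y)) := by
  unfold gpol
  rw [Polynomial.map_prod]
  refine Finset.prod_congr rfl fun y _ => ?_
  rw [Polynomial.map_sub, map_X, map_C]
  rfl

theorem gpol_map_fix (F : LF p) (x : Om p) {σ : LAut p} (hσ : LFix F σ) :
    (gpol F x).map (σ : Om p →+* Om p) = gpol F x := by
  rw [gpol_map]
  unfold gpol
  refine Finset.prod_bij (fun y _ => σ y) (fun y hy => ?_) (fun a _ b _ h => σ.injective h)
    (fun y hy => ?_) (fun _ _ => rfl)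
  · exact mem_orb.2 (lorb_map hσ (mem_orb.1 hy))
  · refine ⟨σ⁻¹ y, mem_orb.2 (lorb_map (LFix.inv hσ) (mem_orb.1 hy)), ?_⟩
    exact σ.apply_symm_apply y

theorem gpol_coeff_mem (F : LF p) (x : Om p) (j : ℕ) : (gpol F x).coeff j ∈ F := by
  refine mem_of_fixed F _ fun σ hσ => ?_
  have h1 := gpol_map_fix F x hσ
  have h2 : ((gpol F x).map (σ : Om p →+* Om p)).coeff j = (gpol F x).coeff j := by rw [h1]
  rw [coeff_map] at h2
  exact h2

theorem gpol_eval_self (F : LF p) (x : Om p) : (gpol F x).eval x = 0 := by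
  unfold gpol
  rw [eval_prod]
  refine Finset.prod_eq_zero (mem_orb.2 (self_mem_lorb F x)) ?_
  simp

theorem gpol_dvd (F : LF p) (x : Om p) (P : (Om p)[X]) (h : ∀ y ∈ lorb F x, P.eval y = 0) :
    gpol F x ∣ P := by
  unfold gpol
  refine Finset.prod_dvd_of_coprime (fun a _ b _ hab => ?_) fun y hy => ?_
  · exact isCoprime_X_sub_C_of_isUnit_sub (sub_ne_zero.2 hab).isUnit
  · exact dvd_iff_isRoot.2 (h y (mem_orb.1 hy))

theorem map_eq_of_fix {F : LF p} {σ : LAut p} (hσ : LFix F σ) (P : (Om p)[X])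
    (hP : ∀ j, P.coeff j ∈ F) : P.map (σ : Om p →+* Om p) = P := by
  ext j
  rw [coeff_map]
  exact hσ _ (hP j)

end

/-- Herbrand's formula -/
theorem l5 : S_STRUCT → S_HERB := by
  intro hS p _ E L hkE hEL hfin πE πL hπE hπL σ hσ
  obtain ⟨-, hL2, hL3⟩ := hS p L hfin
  obtain ⟨hfinE, -⟩ := hL3 E hkE hEL
  obtain ⟨-, hE2, -⟩ := hS p E hfinE
  obtain ⟨hπLL, hπL0, hπL1, -⟩ := id hπL
  obtain ⟨hπEE, hπE0, hπE1, -⟩ := id hπE
  have hprod : ∏ᶠ y ∈ lorb E πL, ‖πL - σ y‖ =
      ‖((gpol E πL).map (σ : Om p →+* Om p)).eval πL‖ := by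
    rw [finprod_mem_eq_finite_toFinset_prod _ (lorb_finite E πL), gpol_map, eval_prod, norm_prod]
    refine Finset.prod_congr rfl fun y _ => ?_
    rw [eval_sub, eval_X, eval_C]
  rw [hprod]
  refine le_antisymm ?_ ?_
  · -- upper bound
    have h1 : ((gpol E πL).map (σ : Om p →+* Om p)).eval πL =
        ((gpol E πL).map (σ : Om p →+* Om p) - gpol E πL).eval πL := by
      rw [eval_sub, gpol_eval_self, sub_zero]
    rw [h1, eval_eq_sum_range]
    refine um_sum _ _ (norm_nonneg _) fun j _ => ?_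
    rw [norm_mul, norm_pow, coeff_sub, coeff_map]
    obtain ⟨P, hP, hPe⟩ := hE2 πE hπE ((gpol E πL).coeff j) (gpol_coeff_mem E πL j)
      (gpol_IP E hπL1.le j)
    have h2 : ‖σ ((gpol E πL).coeff j) - (gpol E πL).coeff j‖ ≤ ‖πE - σ πE‖ := by
      rw [← hPe, eval_aut hσ P (fun j => (hP j).1), norm_sub_rev πE]
      exact IP.eval_sub (fun j => (hP j).2) (by rw [norm_aut]; exact hπE1.le) hπE1.le
    calc ‖σ ((gpol E πL).coeff j) - (gpol E πL).coeff j‖ * ‖πL‖ ^ j
        ≤ ‖πE - σ πE‖ * 1 :=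
          mul_le_mul h2 (pow_le_one₀ (norm_nonneg _) hπL1.le) (by positivity) (norm_nonneg _)
      _ = _ := mul_one _
  · -- lower bound
    obtain ⟨Q, hQ, hQe⟩ := hL2 πL hπL πE (hEL hπEE) hπE1.le
    have hd : gpol E πL ∣ Q - C πE := by
      refine gpol_dvd E πL _ ?_
      rintro _ ⟨τ, hτ, rfl⟩
      rw [eval_sub, eval_C, ← eval_aut (LFix.mono hkE hτ) Q (fun j => (hQ j).1), hQe,
        hτ πE hπEE, sub_self]
    obtain ⟨h, hh⟩ := hd
    have hhI : IP h := IP.of_mul (IP.sub (fun j => (hQ j).2) (IP.C hπE1.le))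
      (gpol_IP E hπL1.le) (gpol_monic E πL) hh
    have h3 : πE - σ πE = ((gpol E πL).map (σ : Om p →+* Om p)).eval πL *
        (h.map (σ : Om p →+* Om p)).eval πL := by
      rw [← eval_mul, ← Polynomial.map_mul, ← hh, Polynomial.map_sub, eval_sub, map_C, eval_C,
        map_eq_of_fix hσ Q (fun j => (hQ j).1), hQe]
      rfl
    rw [h3, norm_mul]
    exact mul_le_of_le_one_right (norm_nonneg _) ((hhI.map σ).eval hπL1.le)

end Pool.Agent.W327.RK
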