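import Pool.Agent.W327.RK.L2
import Pool.Agent.W327.RK.L6

/-!
# Lower bound for the different of the cyclotomic extensions
-/

set_option autoImplicit false

open Polynomial Pool.Agent.W237.RK

namespace Pool.Agent.W327.RK

section
variable {p : ℕ} [Fact p.Prime]

theorem norm_one_sub_le {n : ℕ} (hn : 0 < n) {ζ η : Om p} (hζ : IsPrimitiveRoot ζ n)
    (hη : η ^ n = 1) : ‖1 - η‖ ≤ ‖1 - ζ‖ := by
  have : NeZero n := ⟨hn.ne'⟩
  obtain ⟨a, -, rfl⟩ := hζ.eq_pow_of_pow_eq_one hη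
  rw [norm_sub_rev, norm_sub_rev 1 ζ, ← geom_sum_mul ζ a, norm_mul]
  refine mul_le_of_le_one_left (norm_nonneg _) (um_sum _ _ zero_le_one fun i _ => ?_)
  rw [norm_pow, norm_root hn.ne' hζ.pow_eq_one, one_pow]

theorem norm_one_sub_prim (m : ℕ) {ζ : Om p} (hζ : IsPrimitiveRoot ζ (p ^ (m + 1))) :
    ‖1 - ζ‖ ^ (Nat.totient (p ^ (m + 1))) = (p : ℝ)⁻¹ := by
  have hn : 0 < p ^ (m + 1) := pow_pos (Fact.out : p.Prime).pos _
  have h1 : ∏ μ ∈ primitiveRoots (p ^ (m + 1)) (Om p), (1 - μ) = (p : Om p) := by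
    rw [← eval_one_cyclotomic_prime_pow (R := Om p) m, cyclotomic_eq_prod_X_sub_primitiveRoots hζ,
      eval_prod]
    exact Finset.prod_congr rfl fun μ _ => by rw [eval_sub, eval_X, eval_C]
  have h2 : ‖(p : Om p)‖ = (p : ℝ)⁻¹ := by
    have := norm_p_pow (p := p) 1
    rwa [pow_one, pow_one] at this
  rw [← h2, ← h1, norm_prod, ← hζ.card_primitiveRoots, ← Finset.prod_const]
  refine Finset.prod_congr rfl fun μ hμ => ?_
  rw [mem_primitiveRoots hn] at hμ
  exact le_antisymm (norm_one_sub_le hn hμ hζ.pow_eq_one) (norm_one_sub_le hn hζ hμ.pow_eq_one)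

theorem prod_prim_erase [DecidableEq (Om p)] (m : ℕ) {ζ : Om p}
    (hζ : IsPrimitiveRoot ζ (p ^ (m + 1))) :
    ∏ η ∈ (primitiveRoots (p ^ (m + 1)) (Om p)).erase ζ, ‖ζ - η‖ ≤ ((p : ℝ) ^ m)⁻¹ := by
  have hp : p.Prime := Fact.out
  have hp0 : (0 : ℝ) < p := by exact_mod_cast hp.pos
  have hn : 0 < p ^ (m + 1) := pow_pos hp.pos _
  have hn' : 0 < p ^ m := pow_pos hp.pos _
  set n := p ^ (m + 1) with hndef
  have hA : ∏ η ∈ (nthRootsFinset n (1 : Om p)).erase ζ, ‖ζ - η‖ = ((p : ℝ) ^ (m + 1))⁻¹ := by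
    have h1 := X_pow_sub_one_eq_prod hn hζ
    have hmem : ζ ∈ nthRootsFinset n (1 : Om p) := (mem_nthRootsFinset hn 1).2 hζ.pow_eq_one
    rw [← Finset.mul_prod_erase _ _ hmem] at h1
    have h2 := congrArg (fun P : (Om p)[X] => (derivative P).eval ζ) h1
    simp only [derivative_sub, derivative_X_pow, derivative_one, sub_zero, derivative_mul,
      derivative_X, derivative_C, eval_add, eval_mul, eval_sub, eval_X, eval_C,
      sub_self, zero_mul, add_zero, one_mul, eval_pow, eval_prod] at h2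
    have h3 := congrArg (fun z : Om p => ‖z‖) h2
    simp only [norm_mul, norm_pow, norm_root hn.ne' hζ.pow_eq_one, one_pow, mul_one, norm_prod]
      at h3
    rw [← h3, hndef]
    push_cast
    exact norm_p_pow (m + 1)
  have hB : ∏ η ∈ nthRootsFinset (p ^ m) (1 : Om p), ‖ζ - η‖ = ‖ζ ^ (p ^ m) - 1‖ := by
    have hζp : IsPrimitiveRoot (ζ ^ p) (p ^ m) := hζ.pow hn (by rw [hndef, pow_succ, mul_comm])
    have h1 := congrArg (fun P : (Om p)[X] => P.eval ζ) (X_pow_sub_one_eq_prod hn' hζp)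
    simp only [eval_sub, eval_pow, eval_X, eval_one, eval_prod, eval_C] at h1
    rw [h1, norm_prod]
  have hω : (p : ℝ)⁻¹ ≤ ‖ζ ^ (p ^ m) - 1‖ := by
    have h1 : IsPrimitiveRoot (ζ ^ (p ^ m)) (p ^ (0 + 1)) :=
      hζ.pow hn (by rw [hndef, zero_add, pow_one, pow_succ])
    have h2 := norm_one_sub_prim 0 h1
    rw [norm_sub_rev, ← h2]
    refine pow_le_of_le_one (norm_nonneg _) ?_ ?_
    · refine um_sub _ _ (by rw [norm_one]) ?_
      rw [norm_pow, norm_root hn.ne' hζ.pow_eq_one, one_pow]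
    · exact (Nat.totient_pos.2 (pow_pos hp.pos _)).ne'
  have hsplit : ∏ η ∈ (nthRootsFinset n (1 : Om p)).erase ζ, ‖ζ - η‖ =
      (∏ η ∈ (primitiveRoots n (Om p)).erase ζ, ‖ζ - η‖) *
        ∏ η ∈ nthRootsFinset (p ^ m) (1 : Om p), ‖ζ - η‖ := by
    rw [← Finset.prod_union]
    · refine Finset.prod_congr ?_ fun _ _ => rfl
      ext η
      rw [Finset.mem_erase, Finset.mem_union, Finset.mem_erase, mem_primitiveRoots hn,
        mem_nthRootsFinset hn, mem_nthRootsFinset hn']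
      constructor
      · rintro ⟨hne, h1⟩
        by_cases h2 : η ^ (p ^ m) = 1
        · exact Or.inr h2
        · refine Or.inl ⟨hne, ?_⟩
          have h3 : orderOf η ∣ p ^ (m + 1) := orderOf_dvd_iff_pow_eq_one.2 h1
          obtain ⟨k, hk, hk'⟩ := (Nat.dvd_prime_pow hp).1 h3
          have h4 : k = m + 1 := by
            by_contra h5
            refine h2 (orderOf_dvd_iff_pow_eq_one.1 ?_)
            rw [hk']
            exact pow_dvd_pow p (by omega)
          have h5 := IsPrimitiveRoot.orderOf η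
          rw [hk', h4] at h5
          exact h5
      · rintro (⟨hne, h1⟩ | h1)
        · exact ⟨hne, h1.pow_eq_one⟩
        · refine ⟨?_, ?_⟩
          · rintro rfl
            have h2 := hζ.dvd_of_pow_eq_one _ h1
            have h3 := Nat.le_of_dvd hn' h2
            have h4 : p ^ m < p ^ (m + 1) := Nat.pow_lt_pow_right hp.one_lt (Nat.lt_succ_self m)
            omega
          · rw [hndef, pow_succ, pow_mul, h1, one_pow]
    · rw [Finset.disjoint_left]
      intro η h1 h2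
      rw [Finset.mem_erase, mem_primitiveRoots hn] at h1
      rw [mem_nthRootsFinset hn'] at h2
      have h3 := Nat.le_of_dvd hn' (h1.2.dvd_of_pow_eq_one _ h2)
      have h4 : p ^ m < p ^ (m + 1) := Nat.pow_lt_pow_right hp.one_lt (Nat.lt_succ_self m)
      omega
  rw [hA, hB] at hsplit
  have h5 : (∏ η ∈ (primitiveRoots n (Om p)).erase ζ, ‖ζ - η‖) * (p : ℝ)⁻¹ ≤
      ((p : ℝ) ^ (m + 1))⁻¹ := by
    rw [hsplit]
    exact mul_le_mul_of_nonneg_left hω (Finset.prod_nonneg fun _ _ => norm_nonneg _)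
  have h6 : ((p : ℝ) ^ (m + 1))⁻¹ = ((p : ℝ) ^ m)⁻¹ * (p : ℝ)⁻¹ := by
    rw [pow_succ, mul_inv]
  rw [h6] at h5
  exact le_of_mul_le_mul_right h5 (inv_pos.2 hp0)

/-- the fixed field of an automorphism -/
def fixF (σ : LAut p) : LF p where
  carrier := {x | σ x = x}
  mul_mem' := fun {a b} ha hb => by
    show σ (a * b) = a * b
    rw [map_mul, show σ a = a from ha, show σ b = b from hb]
  add_mem' := fun {a b} ha hb => by
    show σ (a + b) = a + b
    rw [map_add, show σ a = a from ha, show σ b = b from hb]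
  algebraMap_mem' := fun r => σ.commutes r
  inv_mem' := fun a ha => by
    show σ a⁻¹ = a⁻¹
    rw [map_inv₀, show σ a = a from ha]

theorem LFix_iff {F : LF p} {σ : LAut p} : LFix F σ ↔ F ≤ fixF σ := Iff.rfl

theorem LFix_sup_adjoin {F : LF p} {S : Set (Om p)} {σ : LAut p} (h1 : LFix F σ)
    (h2 : ∀ x ∈ S, σ x = x) : LFix (F ⊔ IntermediateField.adjoin ℚ_[p] S) σ :=
  LFix_iff.2 (sup_le h1 (IntermediateField.adjoin_le_iff.2 h2))

theorem unif_kur (hK : S_KURVAL) : Unif (kur p) (p : Om p) := by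
  have hp : p.Prime := Fact.out
  have h2 : ‖(p : Om p)‖ = (p : ℝ)⁻¹ := by
    have := norm_p_pow (p := p) 1
    rwa [pow_one, pow_one] at this
  have hp1 : (1 : ℝ) < p := by exact_mod_cast hp.one_lt
  refine ⟨natCast_mem _ _, p_ne_zero, ?_, fun x hx hx0 => ?_⟩
  · rw [h2]
    exact inv_lt_one_of_one_lt₀ hp1
  · obtain ⟨z, hz⟩ := hK p x hx hx0
    refine ⟨-z, ?_⟩
    rw [hz, h2, inv_zpow, zpow_neg, inv_inv]

theorem lorb_kur_prim (hK : S_KURVAL) (m : ℕ) {ζ : Om p} (hζ : IsPrimitiveRoot ζ (p ^ (m + 1))) :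
    orb (kur p) ζ = primitiveRoots (p ^ (m + 1)) (Om p) := by
  have hp : p.Prime := Fact.out
  have hp1 : (1 : ℝ) < p := by exact_mod_cast hp.one_lt
  have hp0 : (0 : ℝ) < p := zero_lt_one.trans hp1
  have hn : 0 < p ^ (m + 1) := pow_pos hp.pos _
  refine Finset.eq_of_subset_of_card_le ?_ ?_
  · intro y hy
    obtain ⟨σ, -, rfl⟩ := mem_orb.1 hy
    exact (mem_primitiveRoots hn).2 (hζ.map_of_injective σ.injective)
  · rw [hζ.card_primitiveRoots]
    set N := (gpol (kur p) ζ).eval 1 with hN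
    have hNmem : N ∈ kur p := by
      rw [hN, eval_eq_sum_range]
      exact sum_mem fun i _ => mul_mem (gpol_coeff_mem _ _ _) (by rw [one_pow]; exact one_mem _)
    have hnorm : ‖N‖ = ‖1 - ζ‖ ^ (orb (kur p) ζ).card := by
      rw [hN]
      unfold gpol
      rw [eval_prod, norm_prod, ← Finset.prod_const]
      refine Finset.prod_congr rfl fun y hy => ?_
      obtain ⟨σ, -, rfl⟩ := mem_orb.1 hy
      rw [eval_sub, eval_X, eval_C, ← norm_aut σ (1 - ζ), map_sub, map_one]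
    have hone : 1 < p ^ (m + 1) := Nat.one_lt_pow (Nat.succ_ne_zero m) hp.one_lt
    have hζ1 : 1 - ζ ≠ 0 := by
      intro h
      have h1 : ζ = 1 := (sub_eq_zero.1 h).symm
      exact hζ.ne_one hone h1
    have hN0 : N ≠ 0 := by
      intro h
      rw [h, norm_zero] at hnorm
      exact (pow_ne_zero _ (norm_ne_zero_iff.2 hζ1)) hnorm.symm
    obtain ⟨z, hz⟩ := hK p N hNmem hN0
    set t := Nat.totient (p ^ (m + 1)) with ht
    have ht0 : 0 < t := Nat.totient_pos.2 hn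
    set c := (orb (kur p) ζ).card with hc
    have hc0 : 0 < c := Finset.card_pos.2 ⟨ζ, mem_orb.2 (self_mem_lorb _ _)⟩
    have h1 : (p : ℝ) ^ (-(c : ℤ)) = (p : ℝ) ^ (z * t) := by
      rw [zpow_mul, ← hz, hnorm, zpow_natCast, ← pow_mul, mul_comm c t, pow_mul,
        norm_one_sub_prim m hζ, inv_pow, zpow_neg, zpow_natCast]
    have h2 : -(c : ℤ) = z * t := zpow_right_injective₀ hp0 hp1.ne' h1
    have h3 : (t : ℤ) ∣ c := ⟨-z, by linarith⟩
    exact Nat.le_of_dvd hc0 (Int.natCast_dvd_natCast.1 h3)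

theorem finOver_sup {k : LF p} (hk : FinOver (kur p) k) (s : Finset (Om p)) :
    FinOver (kur p) (k ⊔ IntermediateField.adjoin ℚ_[p] (s : Set (Om p))) := by
  classical
  obtain ⟨s', rfl⟩ := hk
  refine ⟨s' ∪ s, ?_⟩
  rw [Finset.coe_union, IntermediateField.adjoin_union, sup_assoc]

theorem finOver_self (k : LF p) : FinOver k k := ⟨∅, by simp⟩

theorem coe_nthRoots {n : ℕ} (hn : 0 < n) :
    ((nthRootsFinset n (1 : Om p) : Finset (Om p)) : Set (Om p)) = {x | x ^ n = 1} := by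
  ext x
  rw [Finset.mem_coe, mem_nthRootsFinset hn]
  rfl

/-- `1 - ζ` is a uniformiser of `kur(ζ)` -/
theorem unif_cyc (hK : S_KURVAL) (hS : S_STRUCT) (m : ℕ) {ζ : Om p}
    (hζ : IsPrimitiveRoot ζ (p ^ (m + 1))) :
    Unif (kur p ⊔ IntermediateField.adjoin ℚ_[p] {x | x ^ (p ^ (m + 1)) = 1}) (1 - ζ) := by
  have hp : p.Prime := Fact.out
  have hp1 : (1 : ℝ) < p := by exact_mod_cast hp.one_lt
  have hp0 : (0 : ℝ) < p := zero_lt_one.trans hp1
  have hn : 0 < p ^ (m + 1) := pow_pos hp.pos _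
  have : NeZero (p ^ (m + 1)) := ⟨hn.ne'⟩
  set k' : LF p := kur p ⊔ IntermediateField.adjoin ℚ_[p] {x | x ^ (p ^ (m + 1)) = 1} with hk'
  have hfin : FinOver (kur p) k' := by
    rw [hk', ← coe_nthRoots hn]
    exact finOver_sup (finOver_self _) _
  obtain ⟨⟨π, hπ⟩, -, h3⟩ := hS p k' hfin
  obtain ⟨-, h4⟩ := h3 (kur p) le_rfl le_sup_left
  have h5 := h4 (p : Om p) π (unif_kur hK) hπ
  have hζmem : ζ ∈ k' := (le_sup_right : _ ≤ k')
    (IntermediateField.subset_adjoin _ _ (show ζ ^ (p ^ (m + 1)) = 1 from hζ.pow_eq_one))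
  have hone : 1 < p ^ (m + 1) := Nat.one_lt_pow (Nat.succ_ne_zero m) hp.one_lt
  have hζ1 : 1 - ζ ≠ 0 := by
    intro h
    exact hζ.ne_one hone (sub_eq_zero.1 h).symm
  set t := Nat.totient (p ^ (m + 1)) with ht
  have ht0 : 0 < t := Nat.totient_pos.2 hn
  have hpn : ‖(p : Om p)‖ = (p : ℝ)⁻¹ := by
    have := norm_p_pow (p := p) 1
    rwa [pow_one, pow_one] at this
  -- the number of conjugates of `π`
  have hcard : (lorb (kur p) π).ncard ≤ t := by
    have h6 : (lorb (kur p) ζ).ncard = t := by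
      rw [← coe_orb, Set.ncard_coe_finset, lorb_kur_prim hK m hζ, hζ.card_primitiveRoots]
    rw [← h6]
    have hch : ∀ y : Om p, ∃ σ : LAut p, y ∈ lorb (kur p) π → LFix (kur p) σ ∧ σ π = y := by
      intro y
      by_cases hy : y ∈ lorb (kur p) π
      · obtain ⟨σ, hσ⟩ := hy
        exact ⟨σ, fun _ => hσ⟩
      · exact ⟨1, fun h => absurd h hy⟩
    choose σ hσ using hch
    refine Set.ncard_le_ncard_of_injOn (fun y => σ y ζ) (fun y hy => ⟨σ y, (hσ y hy).1, rfl⟩) ?_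
      (lorb_finite _ _)
    intro y hy y' hy' heq
    have heq' : σ y ζ = σ y' ζ := heq
    have h7 : LFix k' ((σ y)⁻¹ * σ y') := by
      refine LFix_sup_adjoin (LFix.mul (LFix.inv (hσ y hy).1) (hσ y' hy').1) fun x hx => ?_
      obtain ⟨i, -, rfl⟩ := hζ.eq_pow_of_pow_eq_one (show x ^ (p ^ (m + 1)) = 1 from hx)
      rw [map_pow]
      congr 1
      show (σ y).symm (σ y' ζ) = ζ
      rw [← heq', AlgEquiv.symm_apply_apply]
    have h8 : (σ y).symm (σ y' π) = π := h7 π hπ.1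
    rw [← (hσ y hy).2, ← (hσ y' hy').2]
    have h9 := congrArg (σ y) h8
    rw [AlgEquiv.apply_symm_apply] at h9
    exact h9.symm
  obtain ⟨hπmem, hπ0, hπ1, hπval⟩ := hπ
  obtain ⟨z, hz⟩ := hπval (1 - ζ) (sub_mem (one_mem _) hζmem) hζ1
  have hπpos : 0 < ‖π‖ := norm_pos_iff.2 hπ0
  have h10 : ((lorb (kur p) π).ncard : ℤ) = z * t := by
    have h11 : ‖π‖ ^ ((lorb (kur p) π).ncard : ℤ) = ‖π‖ ^ (z * t) := by
      rw [zpow_mul, ← hz, zpow_natCast, zpow_natCast, h5, hpn, norm_one_sub_prim m hζ]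
    exact zpow_right_injective₀ hπpos hπ1.ne h11
  have hz1 : z = 1 := by
    have h12 : 0 < (lorb (kur p) π).ncard :=
      (Set.ncard_pos (lorb_finite _ _)).2 ⟨π, self_mem_lorb _ _⟩
    have h13 : (0 : ℤ) < z * t := by
      rw [← h10]
      exact_mod_cast h12
    have h14 : (0 : ℤ) < t := by exact_mod_cast ht0
    have h15 : 0 < z := (pos_iff_pos_of_mul_pos h13).2 h14
    have h16 : z * t ≤ 1 * t := by
      rw [← h10, one_mul]
      exact_mod_cast hcard
    have h17 : z ≤ 1 := le_of_mul_le_mul_right h16 h14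
    omega
  rw [hz1, zpow_one] at hz
  refine ⟨sub_mem (one_mem _) hζmem, hζ1, by rw [hz]; exact hπ1, fun x hx hx0 => ?_⟩
  rw [hz]
  exact hπval x hx hx0

theorem ldiff_eq [DecidableEq (Om p)] (F : LF p) (π : Om p) :
    ldiff F π = ∏ y ∈ (orb F π).erase π, ‖π - y‖ := by
  unfold ldiff
  rw [← finprod_mem_coe_finset, Finset.coe_erase, coe_orb]

theorem ldiff_pos (F : LF p) (π : Om p) : 0 < ldiff F π := by
  classical
  rw [ldiff_eq]
  refine Finset.prod_pos fun y hy => ?_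
  rw [Finset.mem_erase] at hy
  exact norm_pos_iff.2 (sub_ne_zero.2 (Ne.symm hy.1))

theorem ldiff_le_one (F : LF p) {π : Om p} (hπ : ‖π‖ ≤ 1) : ldiff F π ≤ 1 := by
  classical
  rw [ldiff_eq]
  refine Finset.prod_le_one (fun _ _ => norm_nonneg _) fun y hy => ?_
  refine um_sub _ _ hπ ?_
  rw [lorb_norm (mem_orb.1 (Finset.mem_of_mem_erase hy))]
  exact hπ

/-- the different of the cyclotomic extensions of `kur` -/
theorem ldiff_cyc (hK : S_KURVAL) (m : ℕ) {ζ : Om p} (hζ : IsPrimitiveRoot ζ (p ^ (m + 1))) :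
    ldiff (kur p) (1 - ζ) ≤ ((p : ℝ) ^ m)⁻¹ := by
  classical
  rw [ldiff_eq]
  refine le_trans (le_of_eq ?_) (prod_prim_erase m hζ)
  rw [← lorb_kur_prim hK m hζ]
  refine Finset.prod_bij (fun y _ => 1 - y) (fun y hy => ?_) (fun a _ b _ h => ?_)
    (fun y hy => ?_) (fun y _ => ?_)
  · rw [Finset.mem_erase] at hy ⊢
    obtain ⟨hne, hy⟩ := hy
    obtain ⟨σ, hσ, rfl⟩ := mem_orb.1 hy
    refine ⟨fun h => hne ?_, mem_orb.2 ⟨σ, hσ, ?_⟩⟩
    · linear_combination -h
    · rw [map_sub, map_one]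
      ring
  · exact (sub_right_inj).1 h
  · rw [Finset.mem_erase] at hy
    obtain ⟨hne, hy⟩ := hy
    obtain ⟨σ, hσ, rfl⟩ := mem_orb.1 hy
    refine ⟨1 - σ ζ, ?_, by ring⟩
    rw [Finset.mem_erase]
    refine ⟨fun h => hne ((sub_right_inj).1 h), mem_orb.2 ⟨σ, hσ, ?_⟩⟩
    rw [map_sub, map_one]
  · rw [show 1 - ζ - y = -(ζ - (1 - y)) by ring, norm_neg]

end

/-- lower bound for the different of the cyclotomic extensions -/
theorem l9 : S_KURVAL → S_STRUCT → S_TOWER → S_CYC := by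
  classical
  intro hK hS hT p _ k hk hfin
  have hp : p.Prime := Fact.out
  have hp1 : (1 : ℝ) < p := by exact_mod_cast hp.one_lt
  have hp0 : (0 : ℝ) < p := zero_lt_one.trans hp1
  obtain ⟨⟨πk, hπk⟩, -, -⟩ := hS p k hfin
  have hpos := ldiff_pos (kur p) πk
  obtain ⟨C, hC⟩ := pow_unbounded_of_one_lt (ldiff (kur p) πk)⁻¹ hp1
  refine ⟨C + 1, fun m π hπ => ?_⟩
  cases m with
  | zero =>
    have h1 : IntermediateField.adjoin ℚ_[p] {x : Om p | x ^ (p ^ 0) = 1} ≤ k := by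
      rw [IntermediateField.adjoin_le_iff]
      intro x hx
      have h2 : x ^ (p ^ 0) = 1 := hx
      rw [pow_zero, pow_one] at h2
      rw [h2]
      exact one_mem k
    rw [sup_eq_left.2 h1] at hπ
    rw [pow_zero, mul_one]
    exact (ldiff_le_one k hπ.2.2.1.le).trans (one_le_pow₀ hp1.le)
  | succ m =>
    have hn : 0 < p ^ (m + 1) := pow_pos hp.pos _
    have : NeZero (p ^ (m + 1)) := ⟨hn.ne'⟩
    obtain ⟨ζ, hζ⟩ := HasEnoughRootsOfUnity.exists_primitiveRoot (Om p) (p ^ (m + 1))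
    set μ : LF p := IntermediateField.adjoin ℚ_[p] {x : Om p | x ^ (p ^ (m + 1)) = 1} with hμ
    have hfinE : FinOver (kur p) (k ⊔ μ) := by
      rw [hμ, ← coe_nthRoots hn]
      exact finOver_sup hfin _
    have hu : Unif (kur p ⊔ μ) (1 - ζ) := unif_cyc hK hS m hζ
    have h1 : ldiff (kur p) π = ldiff k π * ldiff (kur p) πk :=
      hT p (kur p) k (k ⊔ μ) le_rfl hk le_sup_left hfinE πk π hπk hπ
    have h2 : ldiff (kur p) π = ldiff (kur p ⊔ μ) π * ldiff (kur p) (1 - ζ) :=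
      hT p (kur p) (kur p ⊔ μ) (k ⊔ μ) le_rfl le_sup_left (sup_le_sup_right hk μ) hfinE
        (1 - ζ) π hu hπ
    have h3 : ldiff (kur p) π ≤ ((p : ℝ) ^ m)⁻¹ := by
      rw [h2]
      calc ldiff (kur p ⊔ μ) π * ldiff (kur p) (1 - ζ) ≤ 1 * ((p : ℝ) ^ m)⁻¹ :=
            mul_le_mul (ldiff_le_one _ hπ.2.2.1.le) (ldiff_cyc hK m hζ) (ldiff_pos _ _).le
              zero_le_one
        _ = _ := one_mul _
    rw [h1] at h3
    have h4 : ldiff k π ≤ ((p : ℝ) ^ m)⁻¹ * (ldiff (kur p) πk)⁻¹ := by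
      rwa [← div_eq_mul_inv, le_div_iff₀ hpos]
    calc ldiff k π * (p : ℝ) ^ (m + 1)
        ≤ (((p : ℝ) ^ m)⁻¹ * (ldiff (kur p) πk)⁻¹) * (p : ℝ) ^ (m + 1) :=
          mul_le_mul_of_nonneg_right h4 (by positivity)
      _ = (ldiff (kur p) πk)⁻¹ * p := by
          rw [pow_succ]
          field_simp
      _ ≤ (p : ℝ) ^ C * p := mul_le_mul_of_nonneg_right hC.le hp0.le
      _ = (p : ℝ) ^ (C + 1) := (pow_succ _ _).symm

end Pool.Agent.W327.RK
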