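import Pool.Agent.W327.RK.Bas

/-!
# The value group of the maximal unramified extension
-/

set_option autoImplicit false

open Polynomial Pool.Agent.W237.RK

namespace Pool.Agent.W327.RK

section
variable {p : ℕ} [Fact p.Prime]

theorem norm_root {M : ℕ} (hM : M ≠ 0) {u : Om p} (hu : u ^ M = 1) : ‖u‖ = 1 := by
  have h1 : ‖u‖ ^ M = 1 := by rw [← norm_pow, hu, norm_one]
  exact (pow_eq_one_iff_of_nonneg (norm_nonneg _) hM).1 h1

theorem norm_nat {M : ℕ} (hM : ¬ p ∣ M) : ‖(M : Om p)‖ = 1 := by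
  have h1 : ((M : ℕ) : Om p) = (((M : ℕ) : ℚ_[p]) : Om p) := by
    norm_cast
  rw [h1, PadicAlgCl.norm_extends, Padic.norm_natCast_eq_one_iff]
  exact ((Fact.out : p.Prime).coprime_iff_not_dvd).2 hM

/-- distinct roots of unity of order prime to `p` are at distance one -/
theorem norm_sub_root {M : ℕ} (hM : ¬ p ∣ M) {x y : Om p} (hx : x ^ M = 1) (hy : y ^ M = 1)
    (hxy : x ≠ y) : ‖x - y‖ = 1 := by
  have hM0 : M ≠ 0 := by
    rintro rfl
    exact hM (dvd_zero p)
  have hy0 : y ≠ 0 := by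
    rintro rfl
    rw [zero_pow hM0] at hy
    exact zero_ne_one hy
  have key : ∀ u : Om p, u ^ M = 1 → u ≠ 1 → ‖u - 1‖ = 1 := by
    intro u hu hu1
    have hn := norm_root hM0 hu
    refine le_antisymm (um_sub _ _ hn.le (by rw [norm_one])) ?_
    have h1 : ∑ j ∈ Finset.range M, u ^ j = 0 := by
      have h2 := mul_neg_geom_sum u M
      rw [hu, sub_self] at h2
      exact (mul_eq_zero.1 h2).resolve_left (sub_ne_zero.2 (Ne.symm hu1))
    have h3 : (M : Om p) = -∑ j ∈ Finset.range M, (u ^ j - 1) := by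
      rw [Finset.sum_sub_distrib, h1]
      simp
    have h4 : ‖(M : Om p)‖ ≤ ‖u - 1‖ := by
      rw [h3, norm_neg]
      refine um_sum _ _ (norm_nonneg _) fun j _ => ?_
      rw [← geom_sum_mul u j, norm_mul]
      refine mul_le_of_le_one_left (norm_nonneg _) (um_sum _ _ zero_le_one fun i _ => ?_)
      rw [norm_pow, hn, one_pow]
    rw [norm_nat hM] at h4
    exact h4
  have h5 : x - y = (x / y - 1) * y := by
    field_simp
  rw [h5, norm_mul, norm_root hM0 hy, mul_one]
  refine key _ (by rw [div_pow, hx, hy, div_one]) ?_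
  intro h
  exact hxy ((div_eq_one_iff_eq hy0).1 h)

theorem norm_coeff_le_of_interp {M : ℕ} (hM : ¬ p ∣ M) (O : Finset (Om p))
    (hO : ∀ y ∈ O, y ^ M = 1) (P : (Om p)[X]) (hP : P.degree < O.card) {c : ℝ} (hc : 0 ≤ c)
    (hval : ∀ y ∈ O, ‖P.eval y‖ ≤ c) (j : ℕ) : ‖P.coeff j‖ ≤ c := by
  classical
  have hM0 : M ≠ 0 := by
    rintro rfl
    exact hM (dvd_zero p)
  rw [Lagrange.eq_interpolate (s := O) (v := id) (f := P) Function.injective_id.injOn hP,
    Lagrange.interpolate_apply, finsetSum_coeff]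
  refine um_sum _ _ hc fun y hy => ?_
  rw [coeff_C_mul, norm_mul]
  have hI : IP (Lagrange.basis O id y) := by
    unfold Lagrange.basis
    refine IP.prod _ _ fun z hz => ?_
    rw [Finset.mem_erase] at hz
    unfold Lagrange.basisDivisor
    refine IP.mul (IP.C ?_) (IP.sub IP.X (IP.C ?_))
    · rw [norm_inv]
      show ‖y - z‖⁻¹ ≤ 1
      rw [norm_sub_root hM (hO y hy) (hO z hz.2) (Ne.symm hz.1), inv_one]
    · exact (norm_root hM0 (hO z hz.2)).le
  calc ‖P.eval y‖ * ‖(Lagrange.basis O id y).coeff j‖ ≤ c * 1 :=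
        mul_le_mul (hval y hy) (hI j) (norm_nonneg _) hc
    _ = c := mul_one c

/-- the elements of the maximal unramified extension are in the cyclotomic fields of order prime
to `p` -/
theorem mem_kur_iff_exists {x : Om p} (hx : x ∈ kur p) : ∃ (M : ℕ) (ζ : Om p), ¬ p ∣ M ∧
    ζ ^ M = 1 ∧ ∃ P : ℚ_[p][X], aeval ζ P = x := by
  classical
  unfold kur at hx
  obtain ⟨T, hT, hxT⟩ := IntermediateField.exists_finset_of_mem_adjoin hx
  have hT' : ∀ t : Om p, ∃ M : ℕ, t ∈ T → (¬ p ∣ M ∧ t ^ M = 1) := by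
    intro t
    by_cases ht : t ∈ T
    · obtain ⟨M, h⟩ := hT ht
      exact ⟨M, fun _ => h⟩
    · exact ⟨0, fun h => absurd h ht⟩
  choose m hm using hT'
  set M : ℕ := ∏ t ∈ T, m t with hMdef
  have hM : ¬ p ∣ M := by
    intro h
    obtain ⟨t, ht, hd⟩ := ((Fact.out : p.Prime).prime.dvd_finsetProd_iff _).1 h
    exact (hm t ht).1 hd
  have hM0 : M ≠ 0 := by
    intro h
    rw [h] at hM
    exact hM (dvd_zero p)
  have : NeZero M := ⟨hM0⟩
  obtain ⟨ζ, hζ⟩ := HasEnoughRootsOfUnity.exists_primitiveRoot (Om p) M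
  refine ⟨M, ζ, hM, hζ.pow_eq_one, ?_⟩
  have hsub : IntermediateField.adjoin ℚ_[p] (T : Set (Om p)) ≤
      IntermediateField.adjoin ℚ_[p] {ζ} := by
    rw [IntermediateField.adjoin_le_iff]
    intro t ht
    have h1 : t ^ M = 1 := by
      obtain ⟨c, hc⟩ := Finset.dvd_prod_of_mem m (Finset.mem_coe.1 ht)
      rw [hMdef, hc, pow_mul, (hm t ht).2, one_pow]
    obtain ⟨i, -, hi⟩ := hζ.eq_pow_of_pow_eq_one h1
    rw [← hi]
    exact pow_mem (IntermediateField.mem_adjoin_simple_self _ ζ) i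
  have hx2 := hsub hxT
  rw [← IntermediateField.mem_toSubalgebra,
    IntermediateField.adjoin_simple_toSubalgebra_of_isAlgebraic (Algebra.IsAlgebraic.isAlgebraic ζ),
    Algebra.adjoin_singleton_eq_range_aeval] at hx2
  exact hx2

end

/-- the value group of the maximal unramified extension -/
theorem l2 : S_KURVAL := by
  classical
  intro p _ x hx hx0
  obtain ⟨M, ζ, hM, hζ, P₁, hP₁⟩ := mem_kur_iff_exists hx
  have hζi : IsIntegral ℚ_[p] ζ := Algebra.IsIntegral.isIntegral ζ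
  have hmm := minpoly.monic hζi
  set m := minpoly ℚ_[p] ζ with hmdef
  set P := P₁ %ₘ m with hPdef
  have hP : aeval ζ P = x := by
    rw [hPdef, aeval_modByMonic_eq_self_of_root (minpoly.aeval _ _), hP₁]
  have hdeg : P.degree < m.degree := degree_modByMonic_lt _ hmm
  set O : Finset (Om p) := (m.rootSet (Om p)).toFinset with hOdef
  have hcard : O.card = m.natDegree := by
    rw [hOdef, Set.toFinset_card]
    exact card_rootSet_eq_natDegree (minpoly.irreducible hζi).separable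
      (IsAlgClosed.splits _)
  have hOmem : ∀ y ∈ O, ∃ σ : LAut p, σ y = ζ := by
    intro y hy
    rw [hOdef, Set.mem_toFinset, mem_rootSet] at hy
    exact minpoly.exists_algEquiv_of_root (Algebra.IsAlgebraic.isAlgebraic ζ) hy.2
  have hO : ∀ y ∈ O, y ^ M = 1 := by
    intro y hy
    obtain ⟨σ, hσ⟩ := hOmem y hy
    refine σ.injective ?_
    rw [map_pow, hσ, hζ, map_one]
  have hPeval : ∀ y, (P.map (algebraMap ℚ_[p] (Om p))).eval y = aeval y P := fun y => by
    rw [eval_map, aeval_def]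
  have hval : ∀ y ∈ O, ‖(P.map (algebraMap ℚ_[p] (Om p))).eval y‖ ≤ ‖x‖ := by
    intro y hy
    obtain ⟨σ, hσ⟩ := hOmem y hy
    rw [hPeval, ← norm_aut σ]
    have h1 := P.aeval_algHom_apply σ.toAlgHom y
    have h2 : aeval (σ y) P = σ (aeval y P) := h1
    rw [← h2, hσ, hP]
  have hdeg' : (P.map (algebraMap ℚ_[p] (Om p))).degree < O.card := by
    rw [degree_map, hcard, ← degree_eq_natDegree hmm.ne_zero]
    exact hdeg
  have hcoef := norm_coeff_le_of_interp hM O hO _ hdeg' (norm_nonneg x) hval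
  -- the maximum of the coefficients
  obtain ⟨l, hl, hmax⟩ := Finset.exists_max_image (Finset.range (P.natDegree + 1))
    (fun j => ‖P.coeff j‖) ⟨0, by simp⟩
  have hM0 : M ≠ 0 := by
    rintro rfl
    exact hM (dvd_zero p)
  have hle : ‖x‖ ≤ ‖P.coeff l‖ := by
    rw [← hP, aeval_eq_sum_range]
    refine um_sum _ _ (norm_nonneg _) fun j hj => ?_
    rw [Algebra.smul_def, norm_mul, norm_pow, norm_root hM0 hζ, one_pow, mul_one]
    have := hmax j hj
    have h3 : ‖algebraMap ℚ_[p] (Om p) (P.coeff j)‖ = ‖P.coeff j‖ :=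
      PadicAlgCl.norm_extends p (P.coeff j)
    rw [h3]
    exact this
  have hge : ‖P.coeff l‖ ≤ ‖x‖ := by
    have h3 : ‖algebraMap ℚ_[p] (Om p) (P.coeff l)‖ = ‖P.coeff l‖ :=
      PadicAlgCl.norm_extends p (P.coeff l)
    rw [← h3, ← coeff_map]
    exact hcoef l
  have heq : ‖x‖ = ‖P.coeff l‖ := le_antisymm hle hge
  have hne : P.coeff l ≠ 0 := by
    intro h
    rw [h, norm_zero] at heq
    exact hx0 (norm_eq_zero.1 heq)
  exact ⟨_, heq.trans (Padic.norm_eq_zpow_neg_valuation hne)⟩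

end Pool.Agent.W327.RK
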